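import Pool.Agent.N637.SLK.Lin
import Pool.Agent.N73.SLX.REL

/-!
# SLK-REL (helper755, after helper73): elements of the left kernel constant on the large primes
-/

set_option autoImplicit false
set_option linter.unusedVariables false

open scoped Classical

namespace Pool.Agent.N755.SLK

open Finset Filter Topology
open Pool.Agent.N916.GB (ps sx pt)
open Pool.Agent.N637.SLX (IsLk Bf Ind Cor Alt alt gl qf cf hh Ueq Cpt Sol Cmp Srj Aff)
open Pool.Agent.N637.SLK
open Pool.Agent.N73.SLX (z2_add_self z2_eq_of_add pt_inl_left pt_inl_right pt_inr sx_symm isLk_lin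
  isLk_iff)

section

variable {k L : ℕ} {U J : Type} [Fintype U] [Fintype J] [LinearOrder J] {w u : U ⊕ J → ZMod 2}
  {f : Fin L → U ⊕ J → ZMod 2} {c : Fin k → Fin L → ZMod 2} {N : U ⊕ J → U ⊕ J → ZMod 2}

/-- The vector `w` is in the left kernel. -/
lemma isLk_w {V₀ : ℕ} (h : Stg U J w u f c N V₀) {δ : J → J → ZMod 2} (hδ : ∀ k l, δ k l = δ l k) :
    IsLk (pt N δ) w := by
  intro p
  have h1 : ∀ q, q ≠ p → w q * pt N δ q p + w p * pt N δ p q = u q * u p := by
    intro q hq
    rcases q with v | l
    · rw [pt_inl_left, pt_inl_right]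
      exact h.hN _ _ hq
    · rcases p with v | k
      · rw [pt_inl_left, pt_inl_right]
        exact h.hN _ _ hq
      · rw [pt_inr, pt_inr, ← h.hN _ _ hq, h.hw, h.hw, hδ l k]
        linear_combination z2_add_self (δ k l)
  have h2 : ∑ q, (w q * pt N δ q p + w p * pt N δ p q) = ∑ q ∈ univ.erase p, u q * u p := by
    rw [← Finset.sum_erase_add univ _ (Finset.mem_univ p), z2_add_self, add_zero]
    exact Finset.sum_congr rfl fun q hq => h1 q (Finset.ne_of_mem_erase hq)
  have h3 : ∑ q ∈ univ.erase p, u q * u p + u p * u p = u p := by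
    rw [Finset.sum_erase_add univ (fun q => u q * u p) (Finset.mem_univ p), ← Finset.sum_mul, h.hu,
      one_mul]
  have h4 : ∀ x : ZMod 2, x * x = x := by decide
  rw [h2]
  rw [h4] at h3
  linear_combination h3


end

theorem t_REL : S_REL := by
  intro k L U J _ _ _ w u f c₀ N h
  obtain ⟨k0⟩ : Nonempty J := by
    have h1 := h.cc 1 0 (Or.inl one_ne_zero)
    have h2 : 0 < (univ.filter fun x : J => (1 : ZMod 2) * u (Sum.inr x) +
      ∑ i, (0 : Fin k → ZMod 2) i * ∑ l, c₀ i l * f l (Sum.inr x) ≠ 0).card := by omega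
    obtain ⟨x, _⟩ := Finset.card_pos.1 h2
    exact ⟨x⟩
  refine ⟨fun δ hδ => ⟨?_, isLk_w h hδ, fun i => ⟨isLk_w h hδ, fun z hz => h.rad i δ hδ z hz⟩,
    ?_⟩, ?_, ?_⟩
  · intro h0
    have h1 := h.hw k0
    rw [h0] at h1
    exact zero_ne_one h1
  · intro n y hy hI c d hc
    obtain ⟨z, hz⟩ : ∃ z : U ⊕ J → ZMod 2, z = fun p => ∑ a, c a * y a p + d * w p := ⟨_, rfl⟩
    have hzL : IsLk (pt N δ) z := by
      rw [hz]
      exact isLk_lin hy (isLk_w h hδ) c d
    have hzJ : ∀ k, z (Sum.inr k) = 0 := by
      intro k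
      rw [hz]
      have h1 := hc k
      beta_reduce at h1 ⊢
      rw [h1, h.hw, mul_one, z2_add_self]
    have hzU : ∀ v, z (Sum.inl v) = 0 := by
      by_contra hcon
      push Not at hcon
      obtain ⟨k, hk⟩ := h.nd (fun v => z (Sum.inl v)) 0 (Or.inl hcon)
      apply hk
      have h1 := hzL (Sum.inr k)
      simp only [hzJ, zero_mul, add_zero, Fintype.sum_sum_type, pt_inl_left,
        Finset.sum_const_zero] at h1
      simp only [zero_mul, add_zero]
      exact h1
    refine hI c d fun p => ?_
    have h1 : z p = 0 := by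
      rcases p with v | k
      · exact hzU v
      · exact hzJ k
    rw [hz] at h1
    exact z2_eq_of_add h1
  · intro n y hS c d hc
    have h1 : ∀ k, ∑ a, c a * y a (Sum.inr k) = d := by
      intro k
      rw [hc, h.hw, mul_one]
    have hd : d = 0 := by
      obtain ⟨k, hk⟩ := hS (fun _ => 0)
      rw [← h1 k]
      refine Finset.sum_eq_zero fun a _ => ?_
      have := hk a
      beta_reduce at this
      rw [this, mul_zero]
    intro a0
    obtain ⟨k, hk⟩ := hS (fun a => if a = a0 then 1 else 0)
    have h2 := h1 k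
    rw [hd, Finset.sum_eq_single a0] at h2
    · have := hk a0
      beta_reduce at this
      rwa [this, if_pos rfl, mul_one] at h2
    · intro a _ ha
      have := hk a
      beta_reduce at this
      rw [this, if_neg ha, mul_zero]
    · intro h3
      exact absurd (Finset.mem_univ _) h3
  · intro n y
    by_cases hU : ∀ a, Ueq N (y a)
    · rw [if_pos hU, Sol]
      congr 1
      refine Finset.filter_congr fun σ _ => ?_
      refine forall_congr' fun a => ?_
      rw [isLk_iff]
      exact ⟨fun h1 => h1.2, fun h1 => ⟨hU a, h1⟩⟩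
    · rw [if_neg hU, Finset.card_eq_zero, Finset.filter_eq_empty_iff]
      intro σ _ h1
      exact hU fun a => ((isLk_iff σ (y a)).1 (h1 a)).1

end Pool.Agent.N755.SLK
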